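import Mathlib
import Pool.Agent.VarSpace.Res

set_option autoImplicit false

namespace Pool.Agent.Results.MP_b75d2f_lc.CubicBound

/-- A clause over the variables `Fin n`: a finite set of literals, `(x, true)` is `x` and
`(x, false)` is `¬ x`. -/
abbrev Clause (n : ℕ) := Finset (Fin n × Bool)

/-- No assignment satisfies all clauses of `F`. -/
def Unsat {n : ℕ} (F : Finset (Clause n)) : Prop :=
  ∀ a : Fin n → Bool, ∃ C ∈ F, ∀ l ∈ C, a l.1 ≠ l.2

/-- `C` is a resolvent of `C₁` and `C₂`. -/
def IsResolvent {n : ℕ} (C C₁ C₂ : Clause n) : Prop :=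
  ∃ x : Fin n, (x, true) ∈ C₁ ∧ (x, false) ∈ C₂ ∧
    C = C₁.erase (x, true) ∪ C₂.erase (x, false)

/-- A resolution refutation of `F` as a finite directed acyclic graph: the root is labelled by
the empty clause, every vertex is either a source labelled by a clause of `F`, or it has edges
to exactly its two premises and is labelled by a resolvent of their labels. -/
structure Refutation {n : ℕ} (F : Finset (Clause n)) where
  V : Type
  finite : Finite V
  label : V → Clause n
  edge : V → V → Prop
  root : V
  label_root : label root = ∅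
  acyclic : ∀ v, ¬ Relation.TransGen edge v v
  rule : ∀ v, (label v ∈ F ∧ ∀ y, ¬ edge v y) ∨
    ∃ u w, IsResolvent (label v) (label u) (label w) ∧ ∀ y, edge v y ↔ (y = u ∨ y = w)

/-- `D(π) ≤ B`: every path of the graph that starts at the root has at most `B` edges. -/
def Refutation.DepthLE {n : ℕ} {F : Finset (Clause n)} (r : Refutation F) (B : ℝ) : Prop :=
  ∀ (m : ℕ) (p : ℕ → r.V), p 0 = r.root → (∀ i < m, r.edge (p i) (p (i + 1))) → (m : ℝ) ≤ B

/-- A space-oriented (configuration-style) refutation `M 0, …, M s` of `F`. -/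
def IsSpaceRefutation {n : ℕ} (F : Finset (Clause n)) (s : ℕ)
    (M : ℕ → Finset (Clause n)) : Prop :=
  M 0 = ∅ ∧ ∅ ∈ M s ∧ ∀ t < s,
    (∃ C ∈ F, M (t + 1) = insert C (M t)) ∨
    (∃ C₁ ∈ M t, ∃ C₂ ∈ M t, ∃ C, IsResolvent C C₁ C₂ ∧ M (t + 1) = insert C (M t)) ∨
    M (t + 1) ⊆ M t

/-- The variables occurring in a set of clauses. -/
def occ {n : ℕ} (M : Finset (Clause n)) : Finset (Fin n) := (M.biUnion id).image Prod.fst

/-- `F` has a space-oriented refutation of variable space at most `V`. -/
def SpaceLE {n : ℕ} (F : Finset (Clause n)) (V : ℕ) : Prop :=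
  ∃ (s : ℕ) (M : ℕ → Finset (Clause n)), IsSpaceRefutation F s M ∧ ∀ t ≤ s, (occ (M t)).card ≤ V

/-- The minimum variable space `V(F)`. -/
noncomputable def varSpace {n : ℕ} (F : Finset (Clause n)) : ℕ := sInf {V | SpaceLE F V}

/-- Clauses derivable in depth at most `k`. -/
def lev {n : ℕ} (F : Finset (Clause n)) : ℕ → Set (Clause n)
  | 0 => (↑F : Set (Clause n))
  | k + 1 => {C | C ∈ lev F k ∨ ∃ C₁ ∈ lev F k, ∃ C₂ ∈ lev F k, ∃ x : Fin n,
      (x, true) ∈ C₁ ∧ (x, false) ∈ C₂ ∧ C = C₁.erase (x, true) ∪ C₂.erase (x, false)}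

theorem dag {n : ℕ} (F : Finset (Clause n)) (D : ℕ) (h : (∅ : Clause n) ∈ lev F D) :
    ∃ r : Refutation F, ∀ (m : ℕ) (p : ℕ → r.V), p 0 = r.root →
      (∀ i < m, r.edge (p i) (p (i + 1))) → m ≤ D := by
  classical
  have hex : ∀ C : {C : Clause n // C ∈ lev F D}, ∃ k, C.1 ∈ lev F k := fun C => ⟨D, C.2⟩
  let rk : {C : Clause n // C ∈ lev F D} → ℕ := fun C => Nat.find (hex C)
  have hrk : ∀ C, C.1 ∈ lev F (rk C) := fun C => Nat.find_spec (hex C)
  have hrk' : ∀ C k, C.1 ∈ lev F k → rk C ≤ k := fun C k h => Nat.find_min' (hex C) h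
  have hmono : ∀ a b, a ≤ b → lev F a ⊆ lev F b := by
    intro a b hab
    induction b, hab using Nat.le_induction with
    | base => exact subset_rfl
    | succ b _ ih => exact fun C hC => Or.inl (ih hC)
  have key : ∀ C : {C : Clause n // C ∈ lev F D}, C.1 ∉ F →
      ∃ p : {C : Clause n // C ∈ lev F D} × {C : Clause n // C ∈ lev F D},
        rk p.1 < rk C ∧ rk p.2 < rk C ∧ IsResolvent C.1 p.1.1 p.2.1 := by
    intro C hC
    have h1 := hrk C
    have h2 : rk C ≠ 0 := by
      intro h0
      rw [h0] at h1
      exact hC (Finset.mem_coe.mp h1)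
    obtain ⟨j, hj⟩ : ∃ j, rk C = j + 1 := ⟨rk C - 1, by omega⟩
    rw [hj] at h1
    have hjD : j + 1 ≤ D := by rw [← hj]; exact hrk' C D C.2
    rcases h1 with h1 | ⟨C₁, hC₁, C₂, hC₂, x, hx1, hx2, he⟩
    · have := hrk' C j h1
      omega
    · refine ⟨(⟨C₁, hmono j D (by omega) hC₁⟩, ⟨C₂, hmono j D (by omega) hC₂⟩), ?_, ?_,
        ⟨x, hx1, hx2, he⟩⟩
      · have := hrk' ⟨C₁, hmono j D (by omega) hC₁⟩ j hC₁
        simp only at this ⊢
        omega
      · have := hrk' ⟨C₂, hmono j D (by omega) hC₂⟩ j hC₂
        simp only at this ⊢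
        omega
  choose! g hg using key
  let e : {C : Clause n // C ∈ lev F D} → {C : Clause n // C ∈ lev F D} → Prop :=
    fun v y => v.1 ∉ F ∧ (y = (g v).1 ∨ y = (g v).2)
  have he : ∀ v y, e v y → rk y < rk v := by
    rintro v y ⟨hv, hy | hy⟩
    · rw [hy]; exact (hg v hv).1
    · rw [hy]; exact (hg v hv).2.1
  have htr : ∀ v y, Relation.TransGen e v y → rk y < rk v := by
    intro v y hvy
    induction hvy with
    | single h => exact he _ _ h
    | tail _ h ih => exact (he _ _ h).trans ih
  refine ⟨{ V := {C : Clause n // C ∈ lev F D}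
            finite := inferInstance
            label := fun C => C.1
            edge := e
            root := ⟨∅, h⟩
            label_root := rfl
            acyclic := fun v hv => lt_irrefl _ (htr v v hv)
            rule := ?_ }, ?_⟩
  · intro v
    by_cases hv : v.1 ∈ F
    · exact Or.inl ⟨hv, fun y hy => hy.1 hv⟩
    · refine Or.inr ⟨(g v).1, (g v).2, (hg v hv).2.2, fun y => ⟨fun hy => hy.2, fun hy => ⟨hv, hy⟩⟩⟩
  · intro m p hp0 hp
    have h1 : ∀ i, i ≤ m → rk (p i) + i ≤ rk (p 0) := by
      intro i
      induction i with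
      | zero => intro _; simp
      | succ i ih =>
        intro hi
        have h2 := ih (by omega)
        have h3 := he _ _ (hp i (by omega))
        omega
    have h2 := h1 m le_rfl
    have h3 : rk (p 0) ≤ D := hrk' _ D (p 0).2
    omega

/-- The main argument, with deletions of several clauses at once. -/
theorem depth_of_space (n V : ℕ) (F : Finset (Clause n)) (h : SpaceLE F V) :
    (∅ : Clause n) ∈ lev F ((1 + (V * (Nat.log 2 n + 1)) * (3 + 8 * (V + 1))) * V) := by
  classical
  obtain ⟨T, M, ⟨hM0, hMT, hstep⟩, hV⟩ := h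
  have hTpos : 0 < T := by
    rcases Nat.eq_zero_or_pos T with h | h
    · subst h; rw [hM0] at hMT; simp at hMT
    · exact h
  have hFne : F.Nonempty := by
    by_contra hc
    rw [Finset.not_nonempty_iff_eq_empty] at hc
    have : ∀ i, i ≤ T → M i = ∅ := by
      intro i
      induction i with
      | zero => intro _; exact hM0
      | succ i ih =>
        intro hi
        have h0 := ih (by omega)
        rcases hstep i (by omega) with ⟨C, hC, _⟩ | ⟨C, hC, _⟩ | hC
        · rw [hc] at hC; simp at hC
        · rw [h0] at hC; simp at hC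
        · rw [h0] at hC; exact Finset.subset_empty.mp hC
    rw [this T le_rfl] at hMT
    simp at hMT
  obtain ⟨C0, hC0⟩ := hFne
  set vars : ℕ → Finset (Fin n) := fun j => ((M (min j T)).biUnion id).image Prod.fst with hvars
  have hcardv : ∀ j, (vars j).card ≤ V := fun j => hV _ (min_le_right _ _)
  set v : ℕ → {S : Finset (Fin n) // S.card ≤ V} := fun j => ⟨vars j, hcardv j⟩ with hv
  set G : ℕ → (Fin n → Bool) → Prop := fun j α => ∀ C ∈ M (min j T), ∃ l ∈ C, α l.1 = l.2 with hG
  have hGF : ∀ t ω ω', VarSpace.win (v t).1 ω = VarSpace.win (v t).1 ω' → G t ω → G t ω' := by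
    intro t ω ω' h hω C hC
    obtain ⟨l, hl, hlω⟩ := hω C hC
    refine ⟨l, hl, ?_⟩
    rw [← hlω]
    symm
    refine VarSpace.win_eq_iff _ _ _ h l.1 ?_
    simp only [hv, hvars, Finset.mem_image, Finset.mem_biUnion, id]
    exact ⟨l, ⟨C, hC, hl⟩, rfl⟩
  have hst : ∀ t, t < T → ∀ R : Set (Fin n → Bool), (∀ ω ∈ R, G t ω) → (∀ ω ∈ R, ¬ G (t + 1) ω) →
      VarSpace.EF F R := by
    intro t ht R h1 h2
    have e1 : min t T = t := by omega
    have e2 : min (t + 1) T = t + 1 := by omega
    simp only [hG, e1, e2] at h1 h2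
    have hempty : (∀ ω ∈ R, False) → VarSpace.EF F R :=
      fun h => ⟨C0, hC0, fun α hα => (h α hα).elim⟩
    rcases hstep t ht with ⟨C, hC, hM⟩ | ⟨C₁, hC₁, C₂, hC₂, C, ⟨x, hx1, hx2, hCe⟩, hM⟩ | hM
    · refine ⟨C, hC, fun α hα l hl hcon => h2 α hα ?_⟩
      intro C' hC'
      rw [hM, Finset.mem_insert] at hC'
      rcases hC' with rfl | hC'
      · exact ⟨l, hl, hcon⟩
      · exact h1 α hα C' hC'
    · refine hempty fun ω hω => h2 ω hω ?_
      intro C' hC'
      rw [hM, Finset.mem_insert] at hC'
      rcases hC' with hC' | hC'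
      · rw [hC', hCe]
        obtain ⟨l1, hl1, hl1ω⟩ := h1 ω hω C₁ hC₁
        obtain ⟨l2, hl2, hl2ω⟩ := h1 ω hω C₂ hC₂
        by_cases hxv : ω x = true
        · refine ⟨l2, Finset.mem_union_right _ (Finset.mem_erase.mpr ⟨?_, hl2⟩), hl2ω⟩
          rintro rfl
          rw [hxv] at hl2ω
          simp at hl2ω
        · refine ⟨l1, Finset.mem_union_left _ (Finset.mem_erase.mpr ⟨?_, hl1⟩), hl1ω⟩
          rintro rfl
          exact hxv hl1ω
      · exact h1 ω hω C' hC'
    · exact hempty fun ω hω => h2 ω hω fun C' hC' => h1 ω hω C' (hM hC')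
  have hG0 : ∀ ω, G 0 ω := by
    intro ω C hC
    have : min 0 T = 0 := by omega
    rw [this, hM0] at hC
    simp at hC
  have hGT : ∀ ω, ¬ G T ω := by
    intro ω h
    have e : min T T = T := by omega
    simp only [hG, e] at h
    obtain ⟨l, hl, _⟩ := h ∅ hMT
    simp at hl
  have HT : VarSpace.Tests (VarSpace.EF F)
      (fun (S : {S : Finset (Fin n) // S.card ≤ V}) α => VarSpace.win S.1 α)
      (fun S => VarSpace.wvals S.1) v G T (2 ^ V) :=
    { anti := VarSpace.EF_anti F
      hF := hGF
      step := hst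
      hvals := fun x ω => VarSpace.win_mem _ _
      hq := fun x => by
        rw [VarSpace.wvals_card]; exact Nat.pow_le_pow_right (by norm_num) x.2 }
  have h1 := VarSpace.good_pow HT (V * (Nat.log 2 n + 1))
  have h2 := h1 Set.univ 0 T hTpos le_rfl (fun ω _ => hG0 ω) (fun ω _ => hGT ω) ?_
  · rw [Nat.size_pow] at h2
    have h3 := VarSpace.conv F _ _ h2
    have hcube : VarSpace.cube (fun _ : Fin n => (none : Option Bool)) = Set.univ := by
      ext α
      simp [VarSpace.cube]
    rw [← hcube] at h3
    obtain ⟨C, hC, hl⟩ := VarSpace.toRes F (lev F) (fun C => Finset.mem_coe)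
      (fun k C => Iff.rfl) _ _ h3
    have : C = ∅ := by
      rw [Finset.eq_empty_iff_forall_notMem]
      intro l hlC
      have := hl l hlC
      simp at this
    rwa [this] at hC
  · calc (VarSpace.Vis v 0 T).card ≤ Fintype.card {S : Finset (Fin n) // S.card ≤ V} :=
          Finset.card_le_univ _
      _ ≤ (n + 1) ^ V := VarSpace.card_windows n V
      _ ≤ (2 ^ (Nat.log 2 n + 1)) ^ V :=
          Nat.pow_le_pow_left (Nat.lt_pow_succ_log_self (by norm_num) n) V
      _ = 2 ^ (V * (Nat.log 2 n + 1)) := by rw [← pow_mul, mul_comm]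

/-- A configuration that can be reached from the empty one. -/
def Reach {n : ℕ} (F : Finset (Clause n)) (A : Finset (Clause n)) : Prop :=
  ∃ (s : ℕ) (M : ℕ → Finset (Clause n)), M 0 = ∅ ∧ M s = A ∧ ∀ t < s,
    (∃ C ∈ F, M (t + 1) = insert C (M t)) ∨
    (∃ C₁ ∈ M t, ∃ C₂ ∈ M t, ∃ C, IsResolvent C C₁ C₂ ∧ M (t + 1) = insert C (M t)) ∨
    M (t + 1) ⊆ M t

theorem Reach.step {n : ℕ} {F A B : Finset (Clause n)} (hA : Reach F A)
    (hB : (∃ C ∈ F, B = insert C A) ∨
      (∃ C₁ ∈ A, ∃ C₂ ∈ A, ∃ C, IsResolvent C C₁ C₂ ∧ B = insert C A)) : Reach F B := by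
  obtain ⟨s, M, h0, hs, hst⟩ := hA
  refine ⟨s + 1, fun t => if t ≤ s then M t else B, by simp [h0], by simp, ?_⟩
  intro t ht
  rcases Nat.lt_or_ge t s with h | h
  · have h1 : t ≤ s := by omega
    have h2 : t + 1 ≤ s := by omega
    simp only [h1, h2, if_true]
    exact hst t h
  · have h1 : t = s := by omega
    subst h1
    simp only [le_refl, if_true]
    rw [if_neg (by omega), hs]
    rcases hB with hB | hB
    · exact Or.inl hB
    · exact Or.inr (Or.inl hB)

theorem reach_lev {n : ℕ} (F : Finset (Clause n)) : ∀ (k : ℕ) (C : Clause n), C ∈ lev F k →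
    ∀ A, Reach F A → ∃ B, Reach F B ∧ A ⊆ B ∧ C ∈ B := by
  intro k
  induction k with
  | zero =>
    intro C hC A hA
    exact ⟨insert C A, hA.step (Or.inl ⟨C, Finset.mem_coe.mp hC, rfl⟩),
      Finset.subset_insert _ _, Finset.mem_insert_self _ _⟩
  | succ k ih =>
    intro C hC A hA
    rcases hC with hC | ⟨C₁, h1, C₂, h2, x, hx1, hx2, he⟩
    · exact ih C hC A hA
    · obtain ⟨B₁, hB₁, hA₁, hC₁⟩ := ih C₁ h1 A hA
      obtain ⟨B₂, hB₂, hA₂, hC₂⟩ := ih C₂ h2 B₁ hB₁
      exact ⟨insert C B₂, hB₂.step (Or.inr ⟨C₁, hA₂ hC₁, C₂, hC₂, C, ⟨x, hx1, hx2, he⟩, rfl⟩),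
        (hA₁.trans hA₂).trans (Finset.subset_insert _ _), Finset.mem_insert_self _ _⟩

/-- Space refutations exist for unsatisfiable formulas. -/
theorem space_exists {n : ℕ} (F : Finset (Clause n)) (h : Unsat F) : ∃ V, SpaceLE F V := by
  classical
  have hDT : VarSpace.DT (VarSpace.EF F) VarSpace.bit
      (0 + (Finset.univ : Finset (Fin n)).card) Set.univ := by
    refine VarSpace.expand F 0 Finset.univ Set.univ fun a => ?_
    refine VarSpace.EF_anti F {a} _ ?_ ?_
    · rintro α ⟨_, hα⟩
      have : VarSpace.win Finset.univ α = a := hα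
      rw [Set.mem_singleton_iff, ← this]
      funext i
      simp [VarSpace.win]
    · obtain ⟨C, hC, hl⟩ := h a
      refine ⟨C, hC, ?_⟩
      rintro α rfl
      exact hl
  have hcube : VarSpace.cube (fun _ : Fin n => (none : Option Bool)) = Set.univ := by
    ext α
    simp [VarSpace.cube]
  rw [← hcube] at hDT
  obtain ⟨C, hC, hl⟩ := VarSpace.toRes F (lev F) (fun C => Finset.mem_coe)
    (fun k C => Iff.rfl) _ _ hDT
  have hCe : C = ∅ := by
    rw [Finset.eq_empty_iff_forall_notMem]
    intro l hlC
    have := hl l hlC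
    simp at this
  rw [hCe] at hC
  obtain ⟨B, ⟨s, M, h0, hs, hst⟩, _, hB⟩ := reach_lev F _ _ hC ∅
    ⟨0, fun _ => ∅, rfl, rfl, fun t ht => absurd ht (Nat.not_lt_zero t)⟩
  refine ⟨n, s, M, ⟨h0, by rw [hs]; exact hB, hst⟩, fun t _ => ?_⟩
  calc (occ (M t)).card ≤ (Finset.univ : Finset (Fin n)).card := Finset.card_le_univ _
    _ = n := by simp

/-- Variable space at most one. -/
theorem space_one {n : ℕ} (F : Finset (Clause n)) (h : SpaceLE F 1) : (∅ : Clause n) ∈ lev F 1 := by
  classical
  obtain ⟨T, M, ⟨hM0, hMT, hstep⟩, hV⟩ := h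
  by_contra hcon
  have hE : (∅ : Clause n) ∉ F := fun he => hcon (Or.inl (Finset.mem_coe.mpr he))
  have hunit : ∀ x : Fin n, ({(x, true)} : Clause n) ∈ F → ({(x, false)} : Clause n) ∉ F := by
    intro x h1 h2
    apply hcon
    refine Or.inr ⟨_, Finset.mem_coe.mpr h1, _, Finset.mem_coe.mpr h2, x, by simp, by simp, ?_⟩
    ext l
    simp
  -- a clause of a configuration has at most one variable
  have hvar : ∀ t, t ≤ T → ∀ C ∈ M t, ∀ l ∈ C, ∀ l' ∈ C, l.1 = l'.1 := by
    intro t ht C hC l hl l' hl'
    have h1 := hV t ht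
    have h2 : l.1 ∈ occ (M t) := by
      unfold occ
      exact Finset.mem_image_of_mem _ (Finset.mem_biUnion.mpr ⟨C, hC, hl⟩)
    have h3 : l'.1 ∈ occ (M t) := by
      unfold occ
      exact Finset.mem_image_of_mem _ (Finset.mem_biUnion.mpr ⟨C, hC, hl'⟩)
    exact Finset.card_le_one.mp h1 _ h2 _ h3
  -- invariant: every clause is nonempty, and a clause with one literal belongs to `F`
  have hinv : ∀ t, t ≤ T → ∀ C ∈ M t, C ≠ ∅ ∧ ∀ l, C = {l} → C ∈ F := by
    intro t
    induction t with
    | zero =>
      intro _ C hC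
      rw [hM0] at hC
      simp at hC
    | succ t ih =>
      intro ht C hC
      have ih' := ih (by omega)
      rcases hstep t (by omega) with ⟨C', hC', hM⟩ | ⟨C₁, hC₁, C₂, hC₂, C', ⟨x, hx1, hx2, he⟩, hM⟩ |
        hM
      · rw [hM, Finset.mem_insert] at hC
        rcases hC with hC | hC
        · rw [hC]
          exact ⟨fun h => hE (h ▸ hC'), fun _ _ => hC'⟩
        · exact ih' C hC
      · rw [hM, Finset.mem_insert] at hC
        rcases hC with hC | hC
        · -- the premises are subsets of `{x, ¬ x}`
          have hl1 : ∀ l ∈ C₁, l = (x, true) ∨ l = (x, false) := by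
            intro l hl
            have := hvar t (by omega) C₁ hC₁ l hl _ hx1
            rcases l with ⟨y, b⟩
            simp only at this
            subst this
            cases b <;> simp
          have hl2 : ∀ l ∈ C₂, l = (x, true) ∨ l = (x, false) := by
            intro l hl
            have := hvar t (by omega) C₂ hC₂ l hl _ hx2
            rcases l with ⟨y, b⟩
            simp only at this
            subst this
            cases b <;> simp
          have hne1 := ih' C₁ hC₁
          have hne2 := ih' C₂ hC₂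
          by_cases h1 : (x, false) ∈ C₁
          · by_cases h2 : (x, true) ∈ C₂
            · -- resolvent is `{x, ¬ x}`
              have hC3 : C = {(x, true), (x, false)} := by
                rw [hC, he]
                ext l
                simp only [Finset.mem_union, Finset.mem_erase, Finset.mem_insert,
                  Finset.mem_singleton]
                constructor
                · rintro (⟨_, h⟩ | ⟨_, h⟩)
                  · exact hl1 l h
                  · exact hl2 l h
                · rintro (rfl | rfl)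
                  · exact Or.inr ⟨by simp, h2⟩
                  · exact Or.inl ⟨by simp, h1⟩
              refine ⟨by rw [hC3]; simp, fun l hl => ?_⟩
              exfalso
              rw [hC3] at hl
              have h3 : (x, true) ∈ ({l} : Clause n) := by rw [← hl]; simp
              have h4 : (x, false) ∈ ({l} : Clause n) := by rw [← hl]; simp
              rw [Finset.mem_singleton] at h3 h4
              rw [← h3] at h4
              simp at h4
            · -- `C₂ = {¬ x}`, resolvent `{¬ x}`
              have h5 : C₂ = {(x, false)} := by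
                ext l
                rw [Finset.mem_singleton]
                constructor
                · intro hl
                  rcases hl2 l hl with rfl | rfl
                  · exact absurd hl h2
                  · rfl
                · rintro rfl; exact hx2
              have h6 : C = {(x, false)} := by
                rw [hC, he]
                ext l
                simp only [Finset.mem_union, Finset.mem_erase, Finset.mem_singleton]
                constructor
                · rintro (⟨h7, h8⟩ | ⟨h7, h8⟩)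
                  · rcases hl1 l h8 with rfl | rfl
                    · exact absurd rfl h7
                    · rfl
                  · rw [h5, Finset.mem_singleton] at h8
                    exact h8
                · rintro rfl
                  exact Or.inl ⟨by simp, h1⟩
              refine ⟨by rw [h6]; simp, fun l _ => ?_⟩
              rw [h6, ← h5]
              exact hne2.2 _ h5
          · -- `C₁ = {x}`
            have h5 : C₁ = {(x, true)} := by
              ext l
              rw [Finset.mem_singleton]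
              constructor
              · intro hl
                rcases hl1 l hl with rfl | rfl
                · rfl
                · exact absurd hl h1
              · rintro rfl; exact hx1
            have hF1 : ({(x, true)} : Clause n) ∈ F := by
              rw [← h5]; exact hne1.2 _ h5
            by_cases h2 : (x, true) ∈ C₂
            · have h6 : C = {(x, true)} := by
                rw [hC, he]
                ext l
                simp only [Finset.mem_union, Finset.mem_erase, Finset.mem_singleton]
                constructor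
                · rintro (⟨h7, h8⟩ | ⟨h7, h8⟩)
                  · rw [h5, Finset.mem_singleton] at h8
                    exact h8
                  · rcases hl2 l h8 with rfl | rfl
                    · rfl
                    · exact absurd rfl h7
                · rintro rfl
                  exact Or.inr ⟨by simp, h2⟩
              refine ⟨by rw [h6]; simp, fun l _ => ?_⟩
              rw [h6]; exact hF1
            · exfalso
              have h7 : C₂ = {(x, false)} := by
                ext l
                rw [Finset.mem_singleton]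
                constructor
                · intro hl
                  rcases hl2 l hl with rfl | rfl
                  · exact absurd hl h2
                  · rfl
                · rintro rfl; exact hx2
              apply hunit x hF1
              rw [← h7]
              exact hne2.2 _ h7
        · exact ih' C hC
      · exact ih' C (hM hC)
  exact (hinv T le_rfl ∅ hMT).1 rfl

/-- Every unsatisfiable CNF `F` in `n ≥ 2` variables has a resolution refutation `π` with
`D(π) ≤ 40 V(F)^3 log n` and `D(π) ≤ (V(F) log n)^9`, where `V(F)` (which is attained) is the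
minimum variable space and the logarithm is to base 2. -/
theorem result (n : ℕ) (hn : 2 ≤ n) (F : Finset (Clause n)) (hF : Unsat F) :
    SpaceLE F (varSpace F) ∧ ∃ r : Refutation F,
      r.DepthLE (40 * (varSpace F : ℝ) ^ 3 * Real.logb 2 n) ∧
      r.DepthLE (((varSpace F : ℝ) * Real.logb 2 n) ^ 9) := by
  have hsp : SpaceLE F (varSpace F) := Nat.sInf_mem (space_exists F hF)
  refine ⟨hsp, ?_⟩
  set V := varSpace F with hV
  have hlog : (Nat.log 2 n : ℝ) ≤ Real.logb 2 n := Real.natLog_le_logb n 2
  have hlog1 : (1 : ℝ) ≤ Real.logb 2 n := by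
    have : 1 ≤ Nat.log 2 n := Nat.log_pos (by norm_num) hn
    have h1 : (1 : ℝ) ≤ (Nat.log 2 n : ℝ) := by exact_mod_cast this
    linarith
  set L := Real.logb 2 n with hL
  rcases Nat.lt_or_ge V 2 with hV2 | hV2
  · interval_cases hVV : V
    · have h0 := depth_of_space n 0 F hsp
      rw [Nat.mul_zero] at h0
      obtain ⟨r, hr⟩ := dag F 0 h0
      refine ⟨r, fun m p h1 h2 => ?_, fun m p h1 h2 => ?_⟩
      · have := hr m p h1 h2
        have : m = 0 := by omega
        subst this
        simp
      · have := hr m p h1 h2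
        have : m = 0 := by omega
        subst this
        simp
    · obtain ⟨r, hr⟩ := dag F 1 (space_one F hsp)
      refine ⟨r, fun m p h1 h2 => ?_, fun m p h1 h2 => ?_⟩
      · have h3 : (m : ℝ) ≤ 1 := by exact_mod_cast hr m p h1 h2
        push_cast
        nlinarith
      · have h3 : (m : ℝ) ≤ 1 := by exact_mod_cast hr m p h1 h2
        have h4 : (1 : ℝ) ≤ (((1 : ℕ) : ℝ) * L) ^ 9 := by
          rw [Nat.cast_one, one_mul]
          exact one_le_pow₀ hlog1
        linarith
  · obtain ⟨r, hr⟩ := dag F _ (depth_of_space n V F hsp)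
    have hVr : (2 : ℝ) ≤ V := by exact_mod_cast hV2
    have hmain : ∀ (m : ℕ) (p : ℕ → r.V), p 0 = r.root → (∀ i < m, r.edge (p i) (p (i + 1))) →
        (m : ℝ) ≤ 40 * (V : ℝ) ^ 3 * L := by
      intro m p h1 h2
      have h3 : (m : ℝ) ≤ ((((1 + (V * (Nat.log 2 n + 1)) * (3 + 8 * (V + 1))) * V : ℕ)) : ℝ) := by
        exact_mod_cast hr m p h1 h2
      push_cast at h3
      have h4 : (1 + ((V : ℝ) * ((Nat.log 2 n : ℝ) + 1)) * (3 + 8 * ((V : ℝ) + 1))) * V ≤
          (1 + ((V : ℝ) * (L + L)) * (3 + 8 * ((V : ℝ) + 1))) * V := by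
        gcongr
      refine h3.trans (h4.trans ?_)
      have h5 : (V : ℝ) ≤ (V : ℝ) ^ 3 * L := by nlinarith [sq_nonneg ((V : ℝ) - 1)]
      have h6 : (V : ℝ) ^ 2 * L ≤ (V : ℝ) ^ 3 * L := by nlinarith [sq_nonneg ((V : ℝ))]
      nlinarith
    refine ⟨r, hmain, fun m p h1 h2 => (hmain m p h1 h2).trans ?_⟩
    have h7 : (64 : ℝ) ≤ (V : ℝ) ^ 6 := by
      calc (64 : ℝ) = 2 ^ 6 := by norm_num
        _ ≤ (V : ℝ) ^ 6 := pow_le_pow_left₀ (by norm_num) hVr 6
    have h8 : (1 : ℝ) ≤ L ^ 8 := one_le_pow₀ hlog1
    have h9 : (40 : ℝ) ≤ (V : ℝ) ^ 6 * L ^ 8 := by nlinarith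
    have h10 : 0 ≤ (V : ℝ) ^ 3 * L := by positivity
    calc 40 * (V : ℝ) ^ 3 * L = 40 * ((V : ℝ) ^ 3 * L) := by ring
      _ ≤ ((V : ℝ) ^ 6 * L ^ 8) * ((V : ℝ) ^ 3 * L) := mul_le_mul_of_nonneg_right h9 h10
      _ = ((V : ℝ) * L) ^ 9 := by ring

end Pool.Agent.Results.MP_b75d2f_lc.CubicBound
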